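import Mathlib
import Pool.Agent.H11.STA.Twist

/-!
# Traces of the curves `y² = x³ + ux + v` over `𝔽_p`: second moment and reduction modulo `p`
-/

namespace Pool.Agent.H11.DEU

open Pool.Agent.H11.STA Finset

variable {p : ℕ} [Fact p.Prime]

/-- The trace `-∑_x χ(x³ + ux + v)`. -/
def tr (u v : ZMod p) : ℤ := -∑ x : ZMod p, quadraticChar (ZMod p) (x ^ 3 + u * x + v)

lemma point_eq_tr (hp : 3 ≤ p) (u v : ZMod p) (h : 4 * u ^ 3 + 27 * v ^ 2 ≠ 0) :
    (p : ℝ) + 1 - (Nat.card (shortCurve u v).toAffine.Point : ℝ) = (tr u v : ℝ) := by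
  rw [card_point_short u v hp h]
  have h1 := card_affine hp u v
  have h2 : (Nat.card {P : ZMod p × ZMod p // (shortCurve u v).toAffine.Equation P.1 P.2} : ℤ) =
      p - tr u v := by
    rw [h1, tr, Finset.sum_add_distrib]
    simp
    ring
  have h3 : (Nat.card {P : ZMod p × ZMod p //
      (shortCurve u v).toAffine.Equation P.1 P.2} : ℝ) = p - (tr u v : ℝ) := by exact_mod_cast h2
  push_cast
  rw [h3]
  ring

lemma redAngle_eq_tr (hp : 3 ≤ p) (u v : ZMod p) (h : 4 * u ^ 3 + 27 * v ^ 2 ≠ 0) :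
    redAngle p u v = Real.arccos ((tr u v : ℝ) / (2 * √(p : ℝ))) / Real.pi := by
  rw [redAngle, if_neg h, point_eq_tr hp u v h]

/-- The second moment of the trace over all `(u, v) ∈ 𝔽_p²`. -/
theorem sum_tr_sq (hp : 3 ≤ p) :
    ∑ w : ZMod p × ZMod p, (tr w.1 w.2) ^ 2 = (p : ℤ) ^ 3 - (p : ℤ) ^ 2 := by
  classical
  set χ := quadraticChar (ZMod p) with hχ
  have hne : χ ≠ 1 := quadraticChar_ne_one (ringChar_ne_two hp)
  have hsum0 : ∑ a : ZMod p, χ a = 0 := by
    have := MulChar.sum_eq_zero_of_ne_one hne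
    simpa using this
  have hsq : ∑ a : ZMod p, χ a * χ a = (p : ℤ) - 1 := by
    have h1 : ∀ a : ZMod p, χ a * χ a = if a = 0 then 0 else 1 := by
      intro a
      by_cases ha : a = 0
      · rw [if_pos ha, ha, hχ, quadraticChar_zero, mul_zero]
      · rw [if_neg ha, ← sq]
        exact quadraticChar_sq_one ha
    simp_rw [h1]
    rw [Finset.sum_ite]
    simp only [Finset.sum_const_zero, zero_add, Finset.sum_const, nsmul_eq_mul, mul_one]
    have h2 : (Finset.univ.filter (fun a : ZMod p => ¬ a = 0)).card = p - 1 := by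
      rw [Finset.filter_ne' Finset.univ (0 : ZMod p), Finset.card_erase_of_mem (Finset.mem_univ _),
        Finset.card_univ, ZMod.card]
    rw [h2, Nat.cast_sub (by omega)]
    norm_num
  have hexp : ∀ w : ZMod p × ZMod p, (tr w.1 w.2) ^ 2 =
      ∑ x : ZMod p, ∑ y : ZMod p, χ (x ^ 3 + w.1 * x + w.2) * χ (y ^ 3 + w.1 * y + w.2) := by
    intro w
    rw [tr, neg_sq, sq, Finset.sum_mul_sum]
  simp_rw [hexp]
  rw [Finset.sum_comm]
  have hinner : ∀ x y : ZMod p, ∑ w : ZMod p × ZMod p,
      χ (x ^ 3 + w.1 * x + w.2) * χ (y ^ 3 + w.1 * y + w.2) =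
      if x = y then (p : ℤ) * (p - 1) else 0 := by
    intro x y
    by_cases hxy : x = y
    · subst hxy
      rw [if_pos rfl, Fintype.sum_prod_type]
      have h1 : ∀ u : ZMod p, ∑ v : ZMod p, χ (x ^ 3 + u * x + v) * χ (x ^ 3 + u * x + v) =
          (p : ℤ) - 1 := by
        intro u
        rw [← hsq]
        exact (Equiv.sum_comp (Equiv.addLeft (x ^ 3 + u * x)) (fun a => χ a * χ a))
      simp_rw [h1]
      simp only [Finset.sum_const, Finset.card_univ, ZMod.card, nsmul_eq_mul]
    · rw [if_neg hxy]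
      have hxy' : x - y ≠ 0 := sub_ne_zero.mpr hxy
      -- change of variables (u, v) -> (a, b)
      let e : ZMod p × ZMod p ≃ ZMod p × ZMod p :=
        { toFun := fun w => (x ^ 3 + w.1 * x + w.2, y ^ 3 + w.1 * y + w.2)
          invFun := fun z => (((z.1 - x ^ 3) - (z.2 - y ^ 3)) / (x - y),
            (z.1 - x ^ 3) - ((z.1 - x ^ 3) - (z.2 - y ^ 3)) / (x - y) * x)
          left_inv := by
            rintro ⟨u, v⟩
            simp only [Prod.mk.injEq]
            constructor
            · field_simp; ring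
            · field_simp; ring
          right_inv := by
            rintro ⟨a, b⟩
            simp only [Prod.mk.injEq]
            constructor
            · field_simp; ring
            · field_simp; ring }
      have h1 := Equiv.sum_comp e (fun z : ZMod p × ZMod p => χ z.1 * χ z.2)
      have h2 : ∑ w : ZMod p × ZMod p, χ (x ^ 3 + w.1 * x + w.2) * χ (y ^ 3 + w.1 * y + w.2) =
          ∑ z : ZMod p × ZMod p, χ z.1 * χ z.2 := h1
      rw [h2, Fintype.sum_prod_type, ← Finset.sum_mul_sum, hsum0, zero_mul]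
  have hsw : ∀ x : ZMod p, ∑ w : ZMod p × ZMod p, ∑ y : ZMod p,
      χ (x ^ 3 + w.1 * x + w.2) * χ (y ^ 3 + w.1 * y + w.2) = (p : ℤ) * (p - 1) := by
    intro x
    rw [Finset.sum_comm]
    simp_rw [hinner x]
    simp
  simp_rw [hsw]
  simp only [Finset.sum_const, Finset.card_univ, ZMod.card, nsmul_eq_mul]
  ring

open Classical in
/-- At most `4p` pairs have `|trace| ≥ p/2`. -/
theorem card_big (hp : 3 ≤ p) :
    (Finset.univ.filter (fun w : ZMod p × ZMod p => (p : ℤ) ≤ 2 * |tr w.1 w.2|)).card ≤ 4 * p := by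
  have h1 := sum_tr_sq hp
  set S := Finset.univ.filter (fun w : ZMod p × ZMod p => (p : ℤ) ≤ 2 * |tr w.1 w.2|) with hS
  have h2 : ∑ w ∈ S, (p : ℤ) ^ 2 ≤ ∑ w ∈ S, 4 * (tr w.1 w.2) ^ 2 := by
    refine Finset.sum_le_sum (fun w hw => ?_)
    rw [hS, Finset.mem_filter] at hw
    have h3 := pow_le_pow_left₀ (by positivity : (0 : ℤ) ≤ (p : ℤ)) hw.2 2
    rw [mul_pow, sq_abs] at h3
    linarith
  have h4 : ∑ w ∈ S, 4 * (tr w.1 w.2) ^ 2 ≤ ∑ w : ZMod p × ZMod p, 4 * (tr w.1 w.2) ^ 2 :=
    Finset.sum_le_sum_of_subset_of_nonneg (Finset.filter_subset _ _)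
      (fun w _ _ => by positivity)
  rw [← Finset.mul_sum (s := (Finset.univ : Finset (ZMod p × ZMod p))), h1] at h4
  rw [Finset.sum_const, nsmul_eq_mul] at h2
  have hpos : (0 : ℤ) < (p : ℤ) ^ 2 := by
    have : 0 < (p : ℤ) := by exact_mod_cast (Fact.out : p.Prime).pos
    positivity
  have h5 : (S.card : ℤ) * (p : ℤ) ^ 2 ≤ (4 * p : ℤ) * (p : ℤ) ^ 2 := by nlinarith
  have h6 := le_of_mul_le_mul_right h5 hpos
  exact_mod_cast h6

/-- The trace modulo `p` is the Hasse invariant. -/
theorem tr_coeff (hp : 3 ≤ p) (u v : ZMod p) :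
    ((tr u v : ℤ) : ZMod p) =
      ((Polynomial.X ^ 3 + Polynomial.C u * Polynomial.X + Polynomial.C v) ^ ((p - 1) / 2) :
        Polynomial (ZMod p)).coeff (p - 1) := by
  classical
  set F : Polynomial (ZMod p) :=
    (Polynomial.X ^ 3 + Polynomial.C u * Polynomial.X + Polynomial.C v) ^ ((p - 1) / 2) with hF
  have hodd : p % 2 = 1 := by
    rcases (Fact.out : p.Prime).eq_two_or_odd with h | h
    · omega
    · exact h
  have hdeg0 : (Polynomial.X ^ 3 + Polynomial.C u * Polynomial.X + Polynomial.C v :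
      Polynomial (ZMod p)).natDegree ≤ 3 := by
    compute_degree
  have hdeg : F.natDegree < 2 * (p - 1) := by
    have h1 : F.natDegree ≤ ((p - 1) / 2) * 3 :=
      (Polynomial.natDegree_pow_le).trans (Nat.mul_le_mul_left _ hdeg0)
    omega
  have hev : ∀ x : ZMod p, ((quadraticChar (ZMod p) (x ^ 3 + u * x + v) : ℤ) : ZMod p) =
      F.eval x := by
    intro x
    rw [quadraticChar_eq_pow_of_char_ne_two' (ringChar_ne_two hp)]
    rw [hF, Polynomial.eval_pow, ZMod.card]
    simp only [Polynomial.eval_add, Polynomial.eval_mul, Polynomial.eval_pow, Polynomial.eval_X,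
      Polynomial.eval_C]
    congr 1
    omega
  have hsum : ∑ x : ZMod p, F.eval x = -F.coeff (p - 1) := by
    have h1 : ∀ x : ZMod p, F.eval x = ∑ i ∈ range (2 * (p - 1)), F.coeff i * x ^ i := by
      intro x
      exact Polynomial.eval_eq_sum_range' hdeg x
    simp_rw [h1]
    rw [Finset.sum_comm]
    have h2 : ∀ i ∈ range (2 * (p - 1)), ∑ x : ZMod p, F.coeff i * x ^ i =
        if i = p - 1 then -F.coeff (p - 1) else 0 := by
      intro i hi
      rw [← Finset.mul_sum]
      have h3 := FiniteField.sum_pow_lt_card_sub_one (K := ZMod p) i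
      rw [ZMod.card] at h3
      by_cases hi1 : i = p - 1
      · rw [if_pos hi1]
        have h4 : ∑ x : ZMod p, x ^ i = -1 := by
          have h5 : ∀ x : ZMod p, x ^ i = if x = 0 then 0 else 1 := by
            intro x
            by_cases hx : x = 0
            · rw [if_pos hx, hx, zero_pow (by omega)]
            · rw [if_neg hx, hi1, ZMod.pow_card_sub_one_eq_one hx]
          simp_rw [h5]
          rw [Finset.sum_ite]
          simp only [Finset.sum_const_zero, zero_add, Finset.sum_const, nsmul_eq_mul, mul_one]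
          rw [Finset.filter_ne' Finset.univ (0 : ZMod p),
            Finset.card_erase_of_mem (Finset.mem_univ _), Finset.card_univ, ZMod.card,
            Nat.cast_sub (by omega)]
          simp
        rw [h4, hi1]; ring
      · rw [if_neg hi1]
        rcases lt_or_ge i (p - 1) with hlt | hge
        · rw [h3 hlt, mul_zero]
        · -- p - 1 < i < 2 (p - 1)
          have hi2 : i < 2 * (p - 1) := Finset.mem_range.mp hi
          have h6 : ∀ x : ZMod p, x ^ i = x ^ (i - (p - 1)) := by
            intro x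
            by_cases hx : x = 0
            · rw [hx, zero_pow (by omega), zero_pow (by omega)]
            · obtain ⟨j, rfl⟩ : ∃ j, i = j + (p - 1) := ⟨i - (p - 1), by omega⟩
              rw [pow_add, ZMod.pow_card_sub_one_eq_one hx, mul_one, Nat.add_sub_cancel]
          have h7 := FiniteField.sum_pow_lt_card_sub_one (K := ZMod p) (i - (p - 1))
          rw [ZMod.card] at h7
          simp_rw [h6]
          rw [h7 (by omega), mul_zero]
    rw [Finset.sum_congr rfl h2, Finset.sum_ite_eq' (range (2 * (p - 1))) (p - 1)]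
    rw [if_pos (Finset.mem_range.mpr (by omega))]
  rw [tr]
  push_cast
  simp_rw [hev]
  rw [hsum, neg_neg]

end Pool.Agent.H11.DEU
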