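import Mathlib
import Pool.Agent.H11.DEU.Trace
import Pool.Agent.H11.STA.Window

/-!
# The distribution of the angle modulo `p` in terms of class numbers: an upper bound
-/

namespace Pool.Agent.H11.DEU

open Pool.Agent.H11.STA Finset

section prime

variable {p : ℕ} [Fact p.Prime]

/-- The normalised `j`-invariant `4u³/(4u³ + 27v²)` (`j/1728`). -/
def jinv (u v : ZMod p) : ZMod p := 4 * u ^ 3 / (4 * u ^ 3 + 27 * v ^ 2)

lemma two_ne (hp : 5 ≤ p) : (2 : ZMod p) ≠ 0 := by
  intro h2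
  have h' : ((2 : ℕ) : ZMod p) = 0 := by exact_mod_cast h2
  rw [ZMod.natCast_eq_zero_iff] at h'
  have := Nat.le_of_dvd (by norm_num) h'
  omega

lemma three_ne (hp : 5 ≤ p) : (3 : ZMod p) ≠ 0 := by
  intro h2
  have h' : ((3 : ℕ) : ZMod p) = 0 := by exact_mod_cast h2
  rw [ZMod.natCast_eq_zero_iff] at h'
  have := Nat.le_of_dvd (by norm_num) h'
  omega

lemma four_ne (hp : 5 ≤ p) : (4 : ZMod p) ≠ 0 := by
  have : (4 : ZMod p) = 2 * 2 := by norm_num
  rw [this]; exact mul_ne_zero (two_ne hp) (two_ne hp)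

lemma c27_ne (hp : 5 ≤ p) : (27 : ZMod p) ≠ 0 := by
  have : (27 : ZMod p) = 3 ^ 3 := by norm_num
  rw [this]; exact pow_ne_zero 3 (three_ne hp)

/-- At most `2p` pairs are singular. -/
lemma card_sing (hp : 5 ≤ p) :
    (Finset.univ.filter (fun w : ZMod p × ZMod p =>
      4 * w.1 ^ 3 + 27 * w.2 ^ 2 = 0)).card ≤ 2 * p := by
  classical
  have h1 : (Finset.univ.filter (fun w : ZMod p × ZMod p =>
      4 * w.1 ^ 3 + 27 * w.2 ^ 2 = 0)).card =
      ∑ u : ZMod p, (Finset.univ.filter (fun v : ZMod p => 4 * u ^ 3 + 27 * v ^ 2 = 0)).card := by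
    rw [Finset.card_filter, Fintype.sum_prod_type]
    refine Finset.sum_congr rfl (fun u _ => ?_)
    rw [Finset.card_filter]
  rw [h1]
  have h2 : ∀ u : ZMod p,
      (Finset.univ.filter (fun v : ZMod p => 4 * u ^ 3 + 27 * v ^ 2 = 0)).card ≤ 2 := by
    intro u
    by_contra hcon
    push Not at hcon
    obtain ⟨a, b, c, ha, hb, hc, hab, hac, hbc⟩ := Finset.two_lt_card_iff.mp hcon
    simp only [Finset.mem_filter, Finset.mem_univ, true_and] at ha hb hc
    have e1 : 27 * ((a - b) * (a + b)) = 0 := by linear_combination ha - hb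
    have e2 : 27 * ((a - c) * (a + c)) = 0 := by linear_combination ha - hc
    have f1 : a + b = 0 := by
      rcases mul_eq_zero.mp e1 with h | h
      · exact absurd h (c27_ne hp)
      · rcases mul_eq_zero.mp h with h | h
        · exact absurd (sub_eq_zero.mp h) hab
        · exact h
    have f2 : a + c = 0 := by
      rcases mul_eq_zero.mp e2 with h | h
      · exact absurd h (c27_ne hp)
      · rcases mul_eq_zero.mp h with h | h
        · exact absurd (sub_eq_zero.mp h) hac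
        · exact h
    exact hbc (by linear_combination f1 - f2)
  calc ∑ u : ZMod p, (Finset.univ.filter (fun v : ZMod p => 4 * u ^ 3 + 27 * v ^ 2 = 0)).card
      ≤ ∑ _u : ZMod p, 2 := Finset.sum_le_sum (fun u _ => h2 u)
    _ = 2 * p := by simp [mul_comm]

/-- At most `2p` pairs have a zero coordinate. -/
lemma card_axes : (Finset.univ.filter (fun w : ZMod p × ZMod p => w.1 = 0 ∨ w.2 = 0)).card ≤
    2 * p := by
  classical
  have h1 : (Finset.univ.filter (fun w : ZMod p × ZMod p => w.1 = 0 ∨ w.2 = 0)) ⊆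
      (({0} : Finset (ZMod p)) ×ˢ Finset.univ) ∪ (Finset.univ ×ˢ ({0} : Finset (ZMod p))) := by
    intro w hw
    simp only [Finset.mem_filter, Finset.mem_univ, true_and] at hw
    simp only [Finset.mem_union, Finset.mem_product, Finset.mem_singleton, Finset.mem_univ,
      true_and, and_true]
    exact hw
  refine (Finset.card_le_card h1).trans ((Finset.card_union_le _ _).trans ?_)
  simp [Finset.card_product]
  omega

/-- The trace of a quadratic twist. -/
lemma tr_twist (hp : 3 ≤ p) (u v d : ZMod p) (hd0 : d ≠ 0)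
    (hd : quadraticChar (ZMod p) d = -1) : tr (d ^ 2 * u) (d ^ 3 * v) = -tr u v := by
  have h1 := card_affine_twist hp u v d hd0 hd
  rw [card_affine hp, card_affine hp] at h1
  simp only [Finset.sum_add_distrib, Finset.sum_const, Finset.card_univ, ZMod.card,
    nsmul_eq_mul, mul_one] at h1
  unfold tr
  linarith

open Classical in
/-- The pairs with a given `j`-invariant (not `0`, `1728`). -/
noncomputable def fib (c : ZMod p) : Finset (ZMod p × ZMod p) :=
  Finset.univ.filter (fun w => w.1 ≠ 0 ∧ w.2 ≠ 0 ∧ 4 * w.1 ^ 3 + 27 * w.2 ^ 2 ≠ 0 ∧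
    jinv w.1 w.2 = c)

lemma card_fib (hp : 5 ≤ p) (c : ZMod p) : (fib c).card ≤ p - 1 := by
  classical
  have hcard : (Finset.univ.erase (0 : ZMod p)).card = p - 1 := by
    rw [Finset.card_erase_of_mem (Finset.mem_univ _), Finset.card_univ, ZMod.card]
  rw [← hcard]
  refine Finset.card_le_card_of_injOn (fun w => w.2 / w.1) ?_ ?_
  · intro w hw
    rw [Finset.mem_coe, fib, Finset.mem_filter] at hw
    simp only [Finset.coe_erase, Set.mem_diff, Finset.mem_coe, Finset.mem_univ,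
      Set.mem_singleton_iff, true_and]
    exact div_ne_zero hw.2.2.1 hw.2.1
  · rintro ⟨u, v⟩ hw ⟨u', v'⟩ hw' heq
    rw [Finset.mem_coe, fib, Finset.mem_filter] at hw hw'
    obtain ⟨-, hu, hv, hn, hj⟩ := hw
    obtain ⟨-, hu', hv', hn', hj'⟩ := hw'
    simp only at hu hv hn hj hu' hv' hn' hj' heq
    have h1 : jinv u v = jinv u' v' := by rw [hj, hj']
    unfold jinv at h1
    rw [div_eq_div_iff hn hn'] at h1
    have h2 : (4 * 27 : ZMod p) * (u ^ 3 * v' ^ 2 - u' ^ 3 * v ^ 2) = 0 := by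
      linear_combination h1
    have h3 : u ^ 3 * v' ^ 2 - u' ^ 3 * v ^ 2 = 0 :=
      (mul_eq_zero.mp h2).resolve_left (mul_ne_zero (four_ne hp) (c27_ne hp))
    have h4 : v * u' = v' * u := by
      rw [div_eq_div_iff hu hu'] at heq
      exact heq
    -- v' = v u' / u
    have h5 : u ^ 3 * (v * u') ^ 2 - u' ^ 3 * v ^ 2 * u ^ 2 = 0 := by
      rw [h4]; linear_combination u ^ 2 * h3
    have h6 : (u ^ 2 * v ^ 2 * u' ^ 2) * (u - u') = 0 := by linear_combination h5
    have h7 : u - u' = 0 := (mul_eq_zero.mp h6).resolve_left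
      (mul_ne_zero (mul_ne_zero (pow_ne_zero 2 hu) (pow_ne_zero 2 hv)) (pow_ne_zero 2 hu'))
    have h8 : u = u' := sub_eq_zero.mp h7
    subst h8
    have h9 : v = v' := mul_right_cancel₀ hu h4
    rw [h9]

lemma exists_nonres (hp : 3 ≤ p) : ∃ d : ZMod p, d ≠ 0 ∧ quadraticChar (ZMod p) d = -1 := by
  obtain ⟨d, hd⟩ := quadraticChar_exists_neg_one (ringChar_ne_two hp)
  refine ⟨d, ?_, hd⟩
  rintro rfl
  simp at hd

/-- Half of the pairs with given `j` have trace `t ≠ 0` (upper bound). -/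
lemma card_fib_tr (hp : 5 ≤ p) (c : ZMod p) {t : ℤ} (ht : t ≠ 0) :
    2 * ((fib c).filter (fun w => tr w.1 w.2 = t)).card ≤ p - 1 := by
  classical
  obtain ⟨d, hd0, hd⟩ := exists_nonres (p := p) (by omega)
  have h1 : ((fib c).filter (fun w => tr w.1 w.2 = t)).card ≤
      ((fib c).filter (fun w => tr w.1 w.2 = -t)).card := by
    refine Finset.card_le_card_of_injOn (fun w => (d ^ 2 * w.1, d ^ 3 * w.2)) ?_ ?_
    · intro w hw
      rw [Finset.mem_coe, Finset.mem_filter, fib, Finset.mem_filter] at hw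
      obtain ⟨⟨-, hu, hv, hn, hj⟩, htr⟩ := hw
      rw [Finset.mem_coe, Finset.mem_filter, fib, Finset.mem_filter]
      have hdisc : 4 * (d ^ 2 * w.1) ^ 3 + 27 * (d ^ 3 * w.2) ^ 2 =
          d ^ 6 * (4 * w.1 ^ 3 + 27 * w.2 ^ 2) := by ring
      refine ⟨⟨Finset.mem_univ _, mul_ne_zero (pow_ne_zero 2 hd0) hu,
        mul_ne_zero (pow_ne_zero 3 hd0) hv, ?_, ?_⟩, ?_⟩
      · rw [hdisc]; exact mul_ne_zero (pow_ne_zero 6 hd0) hn
      · rw [← hj]
        unfold jinv
        simp only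
        rw [hdisc, div_eq_div_iff (mul_ne_zero (pow_ne_zero 6 hd0) hn) hn]
        ring
      · simp only
        rw [tr_twist (by omega) _ _ d hd0 hd, htr]
    · rintro ⟨u, v⟩ _ ⟨u', v'⟩ _ heq
      simp only [Prod.mk.injEq] at heq
      rw [mul_right_inj' (pow_ne_zero 2 hd0), mul_right_inj' (pow_ne_zero 3 hd0)] at heq
      rw [heq.1, heq.2]
  have h2 : ((fib c).filter (fun w => tr w.1 w.2 = t)).card +
      ((fib c).filter (fun w => tr w.1 w.2 = -t)).card ≤ (fib c).card := by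
    rw [← Finset.card_union_of_disjoint]
    · exact Finset.card_le_card (Finset.union_subset (Finset.filter_subset _ _)
        (Finset.filter_subset _ _))
    · rw [Finset.disjoint_filter]
      intro w _ h3 h4
      omega
  have h3 := card_fib hp c
  omega

lemma card_fib_zero (hp : 5 ≤ p) (c : ZMod p) (t : ℤ) :
    ((fib c).filter (fun w => tr w.1 w.2 = t)).card ≤ p - 1 :=
  (Finset.card_le_card (Finset.filter_subset _ _)).trans (card_fib hp c)

/-- The good pairs with trace `t`. -/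
noncomputable def good (t : ℤ) : Finset (ZMod p × ZMod p) := by
  classical exact Finset.univ.filter (fun w => w.1 ≠ 0 ∧ w.2 ≠ 0 ∧
    4 * w.1 ^ 3 + 27 * w.2 ^ 2 ≠ 0 ∧ 2 * |tr w.1 w.2| < p ∧ tr w.1 w.2 = t)

/-- What part G has to deliver: for every `0 ≤ t < 2√p` a set of at most `h t` invariants, such
that every curve is found at a `t` with `t² ≡ trace²`. -/
def Deuring (p : ℕ) [Fact p.Prime] (h : ℕ → ℕ) : Prop :=
  ∃ J : ℕ → Finset (ZMod p), (∀ t : ℕ, t ^ 2 < 4 * p → (J t).card ≤ h t) ∧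
    ∀ u v : ZMod p, u ≠ 0 → v ≠ 0 → 4 * u ^ 3 + 27 * v ^ 2 ≠ 0 →
      ∃ t : ℕ, t ^ 2 < 4 * p ∧ ((t : ℕ) : ZMod p) ^ 2 = ((tr u v : ℤ) : ZMod p) ^ 2 ∧
        jinv u v ∈ J t

lemma natAbs_of_congr (hp : 17 ≤ p) {t : ℕ} {a : ℤ} (ht : t ^ 2 < 4 * p) (ha : 2 * |a| < p)
    (h : ((t : ℕ) : ZMod p) ^ 2 = ((a : ℤ) : ZMod p) ^ 2) : t = a.natAbs := by
  have h1 : (((t : ℤ) ^ 2 - a ^ 2 : ℤ) : ZMod p) = 0 := by
    push_cast; rw [h]; ring
  rw [ZMod.intCast_zmod_eq_zero_iff_dvd] at h1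
  have h2 : (t : ℤ) ^ 2 - a ^ 2 = ((t : ℤ) - a) * (t + a) := by ring
  rw [h2] at h1
  have h2t : 2 * (t : ℤ) < p := by
    have : (2 * t) ^ 2 < p ^ 2 := by nlinarith
    have := lt_of_pow_lt_pow_left₀ 2 (Nat.zero_le _) this
    exact_mod_cast this
  have ht0 : (0 : ℤ) ≤ t := Int.natCast_nonneg t
  have hpp : Prime (p : ℤ) := Nat.prime_iff_prime_int.mp Fact.out
  have hb1 : |(t : ℤ) - a| < p := by
    have := abs_sub (t : ℤ) a
    rw [abs_of_nonneg ht0] at this
    omega
  have hb2 : |(t : ℤ) + a| < p := by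
    have := abs_add_le (t : ℤ) a
    rw [abs_of_nonneg ht0] at this
    omega
  rcases hpp.dvd_or_dvd h1 with h3 | h3
  · have := Int.eq_zero_of_abs_lt_dvd h3 hb1
    omega
  · have := Int.eq_zero_of_abs_lt_dvd h3 hb2
    omega

lemma good_le (hp : 17 ≤ p) {h : ℕ → ℕ} (hD : Deuring p h) (t : ℤ) :
    (t ^ 2 < 4 * (p : ℤ) → t ≠ 0 → 2 * (good (p := p) t).card ≤ (p - 1) * h t.natAbs) ∧
    (t = 0 → (good (p := p) t).card ≤ (p - 1) * h t.natAbs) ∧
    (¬ t ^ 2 < 4 * (p : ℤ) → (good (p := p) t).card = 0) := by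
  classical
  obtain ⟨J, hJ, hcov⟩ := hD
  have hfind : ∀ w ∈ good (p := p) t, t ^ 2 < 4 * (p : ℤ) ∧
      jinv w.1 w.2 ∈ J t.natAbs := by
    intro w hw
    unfold good at hw
    rw [Finset.mem_filter] at hw
    obtain ⟨-, hu, hv, hn, hs, htr⟩ := hw
    obtain ⟨n, hn1, hn2, hn3⟩ := hcov w.1 w.2 hu hv hn
    have h1 := natAbs_of_congr hp hn1 hs hn2
    rw [htr] at h1
    refine ⟨?_, h1 ▸ hn3⟩
    have h2 : ((t.natAbs : ℤ)) ^ 2 < 4 * (p : ℤ) := by rw [← h1]; exact_mod_cast hn1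
    rwa [Int.natAbs_sq] at h2
  have hcover : good (p := p) t ⊆
      (J t.natAbs).biUnion (fun c => (fib c).filter (fun w => tr w.1 w.2 = t)) := by
    intro w hw
    have hf := hfind w hw
    unfold good at hw
    rw [Finset.mem_filter] at hw
    obtain ⟨-, hu, hv, hn, hs, htr⟩ := hw
    rw [Finset.mem_biUnion]
    refine ⟨jinv w.1 w.2, hf.2, ?_⟩
    rw [Finset.mem_filter, fib, Finset.mem_filter]
    exact ⟨⟨Finset.mem_univ _, hu, hv, hn, rfl⟩, htr⟩
  have hle : (good (p := p) t).card ≤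
      ∑ c ∈ J t.natAbs, ((fib c).filter (fun w => tr w.1 w.2 = t)).card :=
    (Finset.card_le_card hcover).trans Finset.card_biUnion_le
  refine ⟨fun ht ht0 => ?_, fun ht0 => ?_, fun ht => ?_⟩
  · have h4 : (t.natAbs) ^ 2 < 4 * p := by
      have : ((t.natAbs : ℤ)) ^ 2 < 4 * (p : ℤ) := by rw [Int.natAbs_sq]; exact ht
      exact_mod_cast this
    have h5 : 2 * ∑ c ∈ J t.natAbs, ((fib c).filter (fun w => tr w.1 w.2 = t)).card ≤
        (J t.natAbs).card * (p - 1) := by
      rw [Finset.mul_sum]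
      calc ∑ c ∈ J t.natAbs, 2 * ((fib c).filter (fun w => tr w.1 w.2 = t)).card
          ≤ ∑ c ∈ J t.natAbs, (p - 1) :=
            Finset.sum_le_sum (fun c _ => card_fib_tr (by omega) c ht0)
        _ = (J t.natAbs).card * (p - 1) := by rw [Finset.sum_const, smul_eq_mul]
    have h6 := Nat.mul_le_mul_right (p - 1) (hJ t.natAbs h4)
    rw [mul_comm (p - 1)]
    omega
  · have h4 : (t.natAbs) ^ 2 < 4 * p := by
      rw [ht0]; simp; omega
    have h5 : ∑ c ∈ J t.natAbs, ((fib c).filter (fun w => tr w.1 w.2 = t)).card ≤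
        (J t.natAbs).card * (p - 1) := by
      calc ∑ c ∈ J t.natAbs, ((fib c).filter (fun w => tr w.1 w.2 = t)).card
          ≤ ∑ c ∈ J t.natAbs, (p - 1) :=
            Finset.sum_le_sum (fun c _ => card_fib_zero (by omega) c t)
        _ = (J t.natAbs).card * (p - 1) := by rw [Finset.sum_const, smul_eq_mul]
    have h6 := Nat.mul_le_mul_right (p - 1) (hJ t.natAbs h4)
    rw [mul_comm (p - 1)]
    omega
  · rw [Finset.card_eq_zero, Finset.eq_empty_iff_forall_notMem]
    intro w hw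
    exact ht (hfind w hw).1

/-- The integers `t`, `t² < 4p`, whose angle lies in `I`. -/
noncomputable def trSet (p : ℕ) (I : Set ℝ) : Finset ℤ := by
  classical exact (Finset.Ioo (-(p : ℤ)) p).filter (fun t => t ^ 2 < 4 * (p : ℤ) ∧
    Real.arccos ((t : ℝ) / (2 * √(p : ℝ))) / Real.pi ∈ I)

open Classical in
/-- The upper bound for the number of pairs with angle in `I`. -/
theorem count_upper (hp : 17 ≤ p) {h : ℕ → ℕ} (hD : Deuring p h) (I : Set ℝ) :
    2 * (Finset.univ.filter (fun w : ZMod p × ZMod p => redAngle p w.1 w.2 ∈ I)).card ≤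
      (p - 1) * ∑ t ∈ trSet p I, h t.natAbs + (p - 1) * h 0 + 16 * p := by
  set S := Finset.univ.filter (fun w : ZMod p × ZMod p => redAngle p w.1 w.2 ∈ I) with hS
  have hcover : S ⊆ (Finset.univ.filter (fun w : ZMod p × ZMod p =>
      4 * w.1 ^ 3 + 27 * w.2 ^ 2 = 0)) ∪ (Finset.univ.filter (fun w : ZMod p × ZMod p =>
      (p : ℤ) ≤ 2 * |tr w.1 w.2|)) ∪ (Finset.univ.filter (fun w : ZMod p × ZMod p =>
      w.1 = 0 ∨ w.2 = 0)) ∪ (trSet p I).biUnion (fun t => good t) := by
    intro w hw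
    rw [hS, Finset.mem_filter] at hw
    simp only [Finset.mem_union, Finset.mem_filter, Finset.mem_univ, true_and,
      Finset.mem_biUnion]
    by_cases h1 : 4 * w.1 ^ 3 + 27 * w.2 ^ 2 = 0
    · exact Or.inl (Or.inl (Or.inl h1))
    by_cases h2 : (p : ℤ) ≤ 2 * |tr w.1 w.2|
    · exact Or.inl (Or.inl (Or.inr h2))
    by_cases h3 : w.1 = 0 ∨ w.2 = 0
    · exact Or.inl (Or.inr h3)
    right
    push Not at h2 h3
    have hg : w ∈ good (p := p) (tr w.1 w.2) := by
      unfold good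
      rw [Finset.mem_filter]
      exact ⟨Finset.mem_univ _, h3.1, h3.2, h1, h2, rfl⟩
    refine ⟨tr w.1 w.2, ?_, hg⟩
    have hsmall : (tr w.1 w.2) ^ 2 < 4 * (p : ℤ) := by
      by_contra hcon
      have := (good_le hp hD (tr w.1 w.2)).2.2 hcon
      rw [Finset.card_eq_zero] at this
      rw [this] at hg
      exact absurd hg (Finset.notMem_empty _)
    unfold trSet
    rw [Finset.mem_filter, Finset.mem_Ioo]
    have h4 := abs_nonneg (tr w.1 w.2)
    refine ⟨?_, hsmall, ?_⟩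
    · have := abs_lt.mp (show |tr w.1 w.2| < (p : ℤ) by omega)
      exact this
    · rw [← redAngle_eq_tr (by omega) w.1 w.2 h1]
      exact hw.2
  have hbi : 2 * ((trSet p I).biUnion (fun t => good (p := p) t)).card ≤
      (p - 1) * ∑ t ∈ trSet p I, h t.natAbs + (p - 1) * h 0 := by
    have h1 : 2 * ((trSet p I).biUnion (fun t => good (p := p) t)).card ≤
        ∑ t ∈ trSet p I, 2 * (good (p := p) t).card := by
      rw [← Finset.mul_sum]
      exact Nat.mul_le_mul_left _ Finset.card_biUnion_le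
    refine h1.trans ?_
    have h2 : ∀ t ∈ trSet p I, 2 * (good (p := p) t).card ≤
        (p - 1) * h t.natAbs + (if t = 0 then (p - 1) * h 0 else 0) := by
      intro t ht
      unfold trSet at ht
      rw [Finset.mem_filter] at ht
      by_cases ht0 : t = 0
      · have := (good_le hp hD t).2.1 ht0
        rw [if_pos ht0]
        rw [ht0] at this ⊢
        simp only [Int.natAbs_zero] at this ⊢
        omega
      · rw [if_neg ht0, add_zero]
        exact (good_le hp hD t).1 ht.2.1 ht0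
    refine (Finset.sum_le_sum h2).trans ?_
    rw [Finset.sum_add_distrib, ← Finset.mul_sum]
    apply Nat.add_le_add_left
    rw [Finset.sum_ite_eq']
    split_ifs
    · exact le_rfl
    · exact Nat.zero_le _
  have hc := Finset.card_le_card hcover
  have hu1 := Finset.card_union_le ((Finset.univ.filter (fun w : ZMod p × ZMod p =>
      4 * w.1 ^ 3 + 27 * w.2 ^ 2 = 0)) ∪ (Finset.univ.filter (fun w : ZMod p × ZMod p =>
      (p : ℤ) ≤ 2 * |tr w.1 w.2|)) ∪ (Finset.univ.filter (fun w : ZMod p × ZMod p =>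
      w.1 = 0 ∨ w.2 = 0))) ((trSet p I).biUnion (fun t => good t))
  have hu2 := Finset.card_union_le ((Finset.univ.filter (fun w : ZMod p × ZMod p =>
      4 * w.1 ^ 3 + 27 * w.2 ^ 2 = 0)) ∪ (Finset.univ.filter (fun w : ZMod p × ZMod p =>
      (p : ℤ) ≤ 2 * |tr w.1 w.2|))) (Finset.univ.filter (fun w : ZMod p × ZMod p =>
      w.1 = 0 ∨ w.2 = 0))
  have hu3 := Finset.card_union_le (Finset.univ.filter (fun w : ZMod p × ZMod p =>
      4 * w.1 ^ 3 + 27 * w.2 ^ 2 = 0)) (Finset.univ.filter (fun w : ZMod p × ZMod p =>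
      (p : ℤ) ≤ 2 * |tr w.1 w.2|))
  have e1 := card_sing (p := p) (by omega)
  have e2 := card_big (p := p) (by omega)
  have e3 := card_axes (p := p)
  omega

end prime

end Pool.Agent.H11.DEU
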