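import Mathlib
import Pool.Agent.H11.STA.Main

/-!
# From the curve-free bounds to almost all curves
-/

namespace Pool.Agent.H11.DEU

open Pool.Agent.H11.STA Finset

open Classical in
/-- A countable union bound inside a finite set. -/
lemma union_bound {α : Type*} (T : Finset α) (P : ℕ → α → Prop) (η M : ℝ) (hη : 0 ≤ η)
    (hM : 0 ≤ M)
    (h : ∀ m, (((T.filter (fun w => ¬ P m w)).card : ℕ) : ℝ) ≤ η * (1 / 2) ^ (m + 1) * M) :
    (((T.filter (fun w => ¬ ∀ m, P m w)).card : ℕ) : ℝ) ≤ η * M := by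
  have hch : ∀ w : α, ∃ m : ℕ, (¬ ∀ m, P m w) → ¬ P m w := by
    intro w
    by_cases hw : ∀ m, P m w
    · exact ⟨0, fun h => absurd hw h⟩
    · push Not at hw
      obtain ⟨m, hm⟩ := hw
      exact ⟨m, fun _ => hm⟩
  choose i hi using hch
  set U := T.filter (fun w => ¬ ∀ m, P m w) with hU
  have hsub : U ⊆ (U.image i).biUnion (fun m => T.filter (fun w => ¬ P m w)) := by
    intro w hw
    rw [Finset.mem_biUnion]
    refine ⟨i w, Finset.mem_image_of_mem _ hw, ?_⟩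
    rw [hU, Finset.mem_filter] at hw
    rw [Finset.mem_filter]
    exact ⟨hw.1, hi w hw.2⟩
  have hgeom : ∀ S : Finset ℕ, ∑ m ∈ S, ((1 : ℝ) / 2) ^ (m + 1) ≤ 1 := by
    intro S
    have hs : Summable (fun m : ℕ => ((1 : ℝ) / 2) ^ (m + 1)) := by
      have := (summable_geometric_two).mul_left (1 / 2 : ℝ)
      refine this.congr (fun m => ?_)
      rw [pow_succ]; ring
    have h1 := hs.sum_le_tsum S (fun m _ => by positivity)
    have h2 : ∑' m : ℕ, ((1 : ℝ) / 2) ^ (m + 1) = 1 := by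
      have h3 : ∀ m : ℕ, ((1 : ℝ) / 2) ^ (m + 1) = (1 / 2) * (1 / 2) ^ m := fun m => by
        rw [pow_succ]; ring
      simp_rw [h3]
      rw [tsum_mul_left, tsum_geometric_two]
      norm_num
    linarith
  calc ((U.card : ℕ) : ℝ) ≤ (((U.image i).biUnion (fun m => T.filter (fun w => ¬ P m w))).card : ℝ) := by
        exact_mod_cast Finset.card_le_card hsub
    _ ≤ ((∑ m ∈ U.image i, (T.filter (fun w => ¬ P m w)).card : ℕ) : ℝ) := by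
        exact_mod_cast Finset.card_biUnion_le
    _ = ∑ m ∈ U.image i, (((T.filter (fun w => ¬ P m w)).card : ℕ) : ℝ) := by push_cast; rfl
    _ ≤ ∑ m ∈ U.image i, η * (1 / 2) ^ (m + 1) * M := Finset.sum_le_sum (fun m _ => h m)
    _ = η * M * ∑ m ∈ U.image i, ((1 : ℝ) / 2) ^ (m + 1) := by
        rw [Finset.mul_sum]
        refine Finset.sum_congr rfl (fun m _ => by ring)
    _ ≤ η * M * 1 := mul_le_mul_of_nonneg_left (hgeom _) (mul_nonneg hη hM)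
    _ = η * M := by ring

open Classical in
/-- The bound for one `s` and one `ε`. -/
theorem one_pair
    (H1 : ∀ ε : ℝ, 0 < ε → ∃ C : ℝ, ∀ K : ℕ, 1 ≤ K → meanDisc 1 K ≤ C * (K : ℝ) ^ (ε - 1 / 2))
    (H2 : ∀ ε : ℝ, 0 < ε → ∃ C : ℝ, ∀ K : ℕ, 1 ≤ K →
      ∑ k ∈ range K, localErr k ^ 2 ≤ C * (K : ℝ) ^ (1 / 2 + ε))
    (s : ℕ) (hs : 1 ≤ s) (ε η : ℝ) (hε : 0 < ε) (hη : 0 < η) :
    ∃ C : ℝ, 0 < C ∧ ∀ (A B : ℤ) (X Y : ℕ),
      (((curveBox A B X Y).filter (fun w => ¬ ∀ K : ℕ, 1 ≤ K → (K : ℝ) ^ C ≤ min (X : ℝ) Y →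
        extremeDisc (shortCurve (w.1 : ℚ) (w.2 : ℚ)) s K ≤ C * (K : ℝ) ^ (ε - 1 / 2))).card : ℝ)
        ≤ η * (X * Y) := by
  obtain ⟨C, hC, h⟩ := close_all s hs ε η hε hη
  obtain ⟨C1, h1⟩ := H1 ε hε
  obtain ⟨C2, h2⟩ := H2 ε hε
  set S : ℝ := (s : ℝ) with hS
  have hS1 : (1 : ℝ) ≤ S := by rw [hS]; exact_mod_cast hs
  set D : ℝ := S * |C1| + S ^ 2 * (|C2| * (S + 1) ^ (1 / 2 + ε)) + 2 * S ^ 2 with hD
  have hDpos : 0 ≤ D := by positivity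
  refine ⟨C + D, by positivity, fun A B X Y => le_trans ?_ (h A B X Y)⟩
  have hsub : (curveBox A B X Y).filter (fun w => ¬ ∀ K : ℕ, 1 ≤ K →
        (K : ℝ) ^ (C + D) ≤ min (X : ℝ) Y →
        extremeDisc (shortCurve (w.1 : ℚ) (w.2 : ℚ)) s K ≤ (C + D) * (K : ℝ) ^ (ε - 1 / 2)) ⊆
      (curveBox A B X Y).filter (fun w => ¬ ∀ K : ℕ, 1 ≤ K → (K : ℝ) ^ C ≤ min (X : ℝ) Y →
        Close s K (C * (K : ℝ) ^ (ε - 1 / 2)) w.1 w.2) := by
    intro w hw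
    rw [Finset.mem_filter] at hw ⊢
    refine ⟨hw.1, fun hall => hw.2 (fun K hK hKC => ?_)⟩
    have hKR : (1 : ℝ) ≤ K := by exact_mod_cast hK
    have hKpos : (0 : ℝ) < K := by linarith
    have hKC' : (K : ℝ) ^ C ≤ min (X : ℝ) Y :=
      (Real.rpow_le_rpow_of_exponent_le hKR (by linarith)).trans hKC
    have hcl := hall K hK hKC'
    have hpow : (0 : ℝ) < (K : ℝ) ^ (ε - 1 / 2) := Real.rpow_pos_of_pos hKpos _
    have e1 := (abs_le.mp (disc_of_close hcl)).2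
    have e2 := meanDisc_le s K hK
    -- first term
    have e3 : S * meanDisc 1 K ≤ S * |C1| * (K : ℝ) ^ (ε - 1 / 2) := by
      have := (h1 K hK).trans (mul_le_mul_of_nonneg_right (le_abs_self C1) hpow.le)
      calc S * meanDisc 1 K ≤ S * (|C1| * (K : ℝ) ^ (ε - 1 / 2)) :=
            mul_le_mul_of_nonneg_left this (by linarith)
        _ = S * |C1| * (K : ℝ) ^ (ε - 1 / 2) := by ring
    -- second term
    have e4 : S ^ 2 / K * ∑ k ∈ range (K + s), localErr k ^ 2 ≤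
        S ^ 2 * (|C2| * (S + 1) ^ (1 / 2 + ε)) * (K : ℝ) ^ (ε - 1 / 2) := by
      have f1 : ∑ k ∈ range (K + s), localErr k ^ 2 ≤ |C2| * ((K + s : ℕ) : ℝ) ^ (1 / 2 + ε) :=
        (h2 (K + s) (by omega)).trans (mul_le_mul_of_nonneg_right (le_abs_self C2)
          (by positivity))
      have f2 : ((K + s : ℕ) : ℝ) ^ (1 / 2 + ε) ≤ ((S + 1) * K) ^ (1 / 2 + ε) := by
        apply Real.rpow_le_rpow (by positivity) _ (by positivity)
        push_cast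
        nlinarith
      have f3 : ((S + 1) * (K : ℝ)) ^ (1 / 2 + ε) = (S + 1) ^ (1 / 2 + ε) * (K : ℝ) ^ (1 / 2 + ε) :=
        Real.mul_rpow (by positivity) hKpos.le
      have f4 : (K : ℝ) ^ (1 / 2 + ε) = K * (K : ℝ) ^ (ε - 1 / 2) := by
        rw [← Real.rpow_one_add' hKpos.le (by linarith)]
        congr 1; ring
      calc S ^ 2 / K * ∑ k ∈ range (K + s), localErr k ^ 2
          ≤ S ^ 2 / K * (|C2| * ((S + 1) ^ (1 / 2 + ε) * (K : ℝ) ^ (1 / 2 + ε))) := by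
            apply mul_le_mul_of_nonneg_left _ (by positivity)
            refine f1.trans (mul_le_mul_of_nonneg_left ?_ (abs_nonneg _))
            rw [← f3]; exact f2
        _ = S ^ 2 * (|C2| * (S + 1) ^ (1 / 2 + ε)) * (K : ℝ) ^ (ε - 1 / 2) := by
            rw [f4]; field_simp
    have e5 : 2 * S ^ 2 / K ≤ 2 * S ^ 2 * (K : ℝ) ^ (ε - 1 / 2) := by
      have h4 : (K : ℝ) ^ (-(1 : ℝ)) ≤ (K : ℝ) ^ (ε - 1 / 2) :=
        Real.rpow_le_rpow_of_exponent_le hKR (by linarith)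
      rw [Real.rpow_neg_one] at h4
      rw [div_eq_mul_inv]
      exact mul_le_mul_of_nonneg_left h4 (by positivity)
    have : (C + D) * (K : ℝ) ^ (ε - 1 / 2) = C * (K : ℝ) ^ (ε - 1 / 2) +
        S * |C1| * (K : ℝ) ^ (ε - 1 / 2) +
        S ^ 2 * (|C2| * (S + 1) ^ (1 / 2 + ε)) * (K : ℝ) ^ (ε - 1 / 2) +
        2 * S ^ 2 * (K : ℝ) ^ (ε - 1 / 2) := by rw [hD]; ring
    rw [this]
    linarith
  exact_mod_cast Finset.card_le_card hsub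

open Classical in
/-- All `s` and all `ε` at once. -/
theorem all_pairs
    (H1 : ∀ ε : ℝ, 0 < ε → ∃ C : ℝ, ∀ K : ℕ, 1 ≤ K → meanDisc 1 K ≤ C * (K : ℝ) ^ (ε - 1 / 2))
    (H2 : ∀ ε : ℝ, 0 < ε → ∃ C : ℝ, ∀ K : ℕ, 1 ≤ K →
      ∑ k ∈ range K, localErr k ^ 2 ≤ C * (K : ℝ) ^ (1 / 2 + ε))
    (η : ℝ) (hη : 0 < η) :
    ∃ C : ℕ → ℝ → ℝ, (∀ s ε, 0 < C s ε) ∧ ∀ (A B : ℤ) (X Y : ℕ),
      (((Ico A (A + X) ×ˢ Ico B (B + Y)).filter (fun w : ℤ × ℤ =>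
        ¬ ∀ s : ℕ, 1 ≤ s → ∀ ε : ℝ, 0 < ε → ∀ K : ℕ, 1 ≤ K →
          (K : ℝ) ^ C s ε ≤ min (X : ℝ) Y →
          extremeDisc (shortCurve (w.1 : ℚ) (w.2 : ℚ)) s K ≤
            C s ε * (K : ℝ) ^ (ε - 1 / 2))).card : ℝ) ≤ η * (X * Y) := by
  have hpair : ∀ m : ℕ, ∃ C : ℝ, 0 < C ∧ ∀ (A B : ℤ) (X Y : ℕ),
      (((curveBox A B X Y).filter (fun w => ¬ ∀ K : ℕ, 1 ≤ K → (K : ℝ) ^ C ≤ min (X : ℝ) Y →
        extremeDisc (shortCurve (w.1 : ℚ) (w.2 : ℚ)) (m.unpair.1 + 1) K ≤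
          C * (K : ℝ) ^ (1 / ((m.unpair.2 : ℝ) + 1) - 1 / 2))).card : ℝ)
        ≤ (η * (1 / 2) ^ (m + 1)) * (X * Y) := fun m =>
    one_pair H1 H2 (m.unpair.1 + 1) (by omega) (1 / ((m.unpair.2 : ℝ) + 1))
      (η * (1 / 2) ^ (m + 1)) (by positivity) (by positivity)
  choose C hC h using hpair
  refine ⟨fun s ε => C (Nat.pair (s - 1) ⌈1 / ε⌉₊), fun s ε => hC _, fun A B X Y => ?_⟩
  have hub := union_bound (curveBox A B X Y) (fun m w => ∀ K : ℕ, 1 ≤ K →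
      (K : ℝ) ^ C m ≤ min (X : ℝ) Y →
        extremeDisc (shortCurve (w.1 : ℚ) (w.2 : ℚ)) (m.unpair.1 + 1) K ≤
          C m * (K : ℝ) ^ (1 / ((m.unpair.2 : ℝ) + 1) - 1 / 2)) η (X * Y) hη.le
    (by positivity) (fun m => h m A B X Y)
  refine le_trans ?_ hub
  have hsub : (Ico A (A + X) ×ˢ Ico B (B + Y)).filter (fun w : ℤ × ℤ =>
        ¬ ∀ s : ℕ, 1 ≤ s → ∀ ε : ℝ, 0 < ε → ∀ K : ℕ, 1 ≤ K →
          (K : ℝ) ^ C (Nat.pair (s - 1) ⌈1 / ε⌉₊) ≤ min (X : ℝ) Y →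
          extremeDisc (shortCurve (w.1 : ℚ) (w.2 : ℚ)) s K ≤
            C (Nat.pair (s - 1) ⌈1 / ε⌉₊) * (K : ℝ) ^ (ε - 1 / 2)) ⊆
      (curveBox A B X Y).filter (fun w => ¬ ∀ m : ℕ, ∀ K : ℕ, 1 ≤ K →
      (K : ℝ) ^ C m ≤ min (X : ℝ) Y →
        extremeDisc (shortCurve (w.1 : ℚ) (w.2 : ℚ)) (m.unpair.1 + 1) K ≤
          C m * (K : ℝ) ^ (1 / ((m.unpair.2 : ℝ) + 1) - 1 / 2)) := by
    intro w hw
    rw [Finset.mem_filter] at hw ⊢
    refine ⟨hw.1, fun hall => hw.2 (fun s hs ε hε K hK hKC => ?_)⟩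
    have hx := hall (Nat.pair (s - 1) ⌈1 / ε⌉₊) K hK hKC
    rw [Nat.unpair_pair] at hx
    simp only at hx
    rw [Nat.sub_add_cancel hs] at hx
    refine hx.trans (mul_le_mul_of_nonneg_left ?_ (hC _).le)
    apply Real.rpow_le_rpow_of_exponent_le (by exact_mod_cast hK)
    have h1 : 1 / ε ≤ ⌈1 / ε⌉₊ := Nat.le_ceil _
    have h2 : 1 / ((⌈1 / ε⌉₊ : ℝ) + 1) ≤ ε := by
      rw [div_le_iff₀ (by positivity)]
      rw [div_le_iff₀ hε] at h1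
      nlinarith
    linarith
  exact_mod_cast Finset.card_le_card hsub

end Pool.Agent.H11.DEU
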