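import Mathlib
import Pool.Agent.H11.DEU.Law
import Pool.Agent.H11.STA.Mean
import Pool.Agent.H11.STA.Bad

/-!
# From averages of class numbers to the curve-free discrepancies
-/

namespace Pool.Agent.H11.DEU

open Pool.Agent.H11.STA Finset MeasureTheory

/-- The error of the class number sum at the `(k+1)`-st prime on `[0, θ)`. -/
noncomputable def W (h : ℕ → ℕ → ℕ) (k : ℕ) (θ : ℝ) : ℝ :=
  (∑ t ∈ trSet (Nat.nth Nat.Prime k) (Set.Ico 0 θ), (h k t.natAbs : ℝ)) /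
    (2 * (Nat.nth Nat.Prime k : ℝ)) - satoTate.real (Set.Ico 0 θ)

/-- The averages over `k < K` are small. -/
def C1 (h : ℕ → ℕ → ℕ) : Prop := ∀ ε : ℝ, 0 < ε → ∃ C : ℝ, ∀ K : ℕ, 1 ≤ K → ∀ θ : ℝ, 0 ≤ θ →
  θ ≤ 1 → |∑ k ∈ range K, W h k θ| ≤ C * (K : ℝ) ^ (1 / 2 + ε)

/-- The mean square of the supremum over `θ` is small. -/
def C2 (h : ℕ → ℕ → ℕ) : Prop := ∀ ε : ℝ, 0 < ε → ∃ C : ℝ, ∀ K : ℕ, 1 ≤ K → ∃ w : ℕ → ℝ,
  (∀ k ∈ range K, ∀ θ : ℝ, 0 ≤ θ → θ ≤ 1 → |W h k θ| ≤ w k) ∧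
    ∑ k ∈ range K, w k ^ 2 ≤ C * (K : ℝ) ^ (1 / 2 + ε)

/-- The class numbers of `-4p` are small. -/
def C3 (h : ℕ → ℕ → ℕ) : Prop := ∀ ε : ℝ, 0 < ε → ∃ C : ℝ, ∀ k : ℕ,
  (h k 0 : ℝ) ≤ C * (Nat.nth Nat.Prime k : ℝ) ^ (1 / 2 + ε)

/-- The remaining error terms. -/
noncomputable def del (h : ℕ → ℕ → ℕ) (k : ℕ) : ℝ :=
  (h k 0 : ℝ) / (2 * (Nat.nth Nat.Prime k : ℝ)) + 8 / (Nat.nth Nat.Prime k : ℝ)

lemma prime_pos (k : ℕ) : (0 : ℝ) < (Nat.nth Nat.Prime k : ℝ) := by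
  exact_mod_cast (Nat.prime_nth_prime k).pos

lemma del_nonneg (h : ℕ → ℕ → ℕ) (k : ℕ) : 0 ≤ del h k := by
  have := prime_pos k
  unfold del; positivity

lemma law_upper {h : ℕ → ℕ → ℕ} {k : ℕ} (hk : 17 ≤ Nat.nth Nat.Prime k)
    (hD : Deuring (Nat.nth Nat.Prime k) (h k)) (I : Set ℝ) :
    angleLaw k I ≤ (∑ t ∈ trSet (Nat.nth Nat.Prime k) I, (h k t.natAbs : ℝ)) /
      (2 * (Nat.nth Nat.Prime k : ℝ)) + del h k := by
  classical
  have h1 := count_upper hk hD I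
  have hp := prime_pos k
  set p : ℕ := Nat.nth Nat.Prime k with hpdef
  have h2 : 2 * ((Finset.univ.filter (fun w : ZMod p × ZMod p =>
      redAngle p w.1 w.2 ∈ I)).card : ℝ) ≤
      ((p : ℝ) - 1) * ∑ t ∈ trSet p I, (h k t.natAbs : ℝ) + ((p : ℝ) - 1) * h k 0 + 16 * p := by
    have h3 : ((p - 1 : ℕ) : ℝ) = (p : ℝ) - 1 := by
      rw [Nat.cast_sub (by omega)]; norm_num
    have h4 : ((2 * (Finset.univ.filter (fun w : ZMod p × ZMod p =>
      redAngle p w.1 w.2 ∈ I)).card : ℕ) : ℝ) ≤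
      (((p - 1) * ∑ t ∈ trSet p I, h k t.natAbs + (p - 1) * h k 0 + 16 * p : ℕ) : ℝ) := by
      exact_mod_cast h1
    push_cast at h4
    rw [h3] at h4
    exact h4
  have h5 : angleLaw k I = ((Finset.univ.filter (fun w : ZMod p × ZMod p =>
      redAngle p w.1 w.2 ∈ I)).card : ℝ) / (p : ℝ) ^ 2 := by
    unfold angleLaw
    rfl
  set S : ℝ := ∑ t ∈ trSet p I, (h k t.natAbs : ℝ) with hS
  have hS0 : 0 ≤ S := Finset.sum_nonneg (fun t _ => Nat.cast_nonneg _)
  have hh0 : (0 : ℝ) ≤ h k 0 := Nat.cast_nonneg _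
  rw [h5, del, ← hpdef, div_le_iff₀ (by positivity)]
  have h6 : (S / (2 * (p : ℝ)) + ((h k 0 : ℝ) / (2 * (p : ℝ)) + 8 / (p : ℝ))) * (p : ℝ) ^ 2 =
      (p * S + p * h k 0 + 16 * p) / 2 := by
    field_simp
    ring
  rw [h6]
  linarith

lemma trSet_split (p : ℕ) {I J : Set ℝ} (hIJ : Disjoint I J) (f : ℤ → ℝ) :
    ∑ t ∈ trSet p (I ∪ J), f t = ∑ t ∈ trSet p I, f t + ∑ t ∈ trSet p J, f t := by
  classical
  have h1 : trSet p (I ∪ J) = trSet p I ∪ trSet p J := by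
    ext t
    simp only [trSet, Finset.mem_filter, Finset.mem_union, Set.mem_union]
    tauto
  rw [h1, Finset.sum_union]
  rw [Finset.disjoint_left]
  intro t ht ht'
  simp only [trSet, Finset.mem_filter] at ht ht'
  exact Set.disjoint_left.mp hIJ ht.2.2 ht'.2.2

lemma trSet_Icc (p : ℕ) (hp : 0 < p) (θ : ℝ) :
    trSet p (Set.Icc θ 1) = trSet p (Set.Ico θ 1) := by
  classical
  ext t
  simp only [trSet, Finset.mem_filter, Set.mem_Icc, Set.mem_Ico]
  constructor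
  · rintro ⟨h1, h2, h3, h4⟩
    refine ⟨h1, h2, h3, lt_of_le_of_ne h4 ?_⟩
    intro h5
    rw [div_eq_iff Real.pi_ne_zero, one_mul] at h5
    rw [Real.arccos_eq_pi] at h5
    have hs : 0 < √(p : ℝ) := Real.sqrt_pos.mpr (by exact_mod_cast hp)
    rw [div_le_iff₀ (by positivity)] at h5
    have h6 : (t : ℝ) ^ 2 < 4 * p := by exact_mod_cast h2
    have h7 : (2 * √(p : ℝ)) ^ 2 = 4 * p := by
      rw [mul_pow, Real.sq_sqrt (Nat.cast_nonneg p)]; norm_num
    nlinarith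
  · rintro ⟨h1, h2, h3, h4⟩
    exact ⟨h1, h2, h3, h4.le⟩

lemma angleLaw_eq (k : ℕ) (I : Set ℝ) [DecidablePred (fun w : ZMod (Nat.nth Nat.Prime k) ×
    ZMod (Nat.nth Nat.Prime k) => redAngle (Nat.nth Nat.Prime k) w.1 w.2 ∈ I)] :
    angleLaw k I = ((Finset.univ.filter fun w : ZMod (Nat.nth Nat.Prime k) ×
      ZMod (Nat.nth Nat.Prime k) => redAngle (Nat.nth Nat.Prime k) w.1 w.2 ∈ I).card : ℝ) /
      (Nat.nth Nat.Prime k : ℝ) ^ 2 := by
  unfold angleLaw
  congr!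

lemma law_split (k : ℕ) {I J : Set ℝ} (hIJ : Disjoint I J) :
    angleLaw k (I ∪ J) = angleLaw k I + angleLaw k J := by
  classical
  rw [angleLaw_eq k (I ∪ J), angleLaw_eq k I, angleLaw_eq k J, ← add_div]
  congr 1
  have h1 : (Finset.univ.filter fun w : ZMod (Nat.nth Nat.Prime k) × ZMod (Nat.nth Nat.Prime k) =>
      redAngle (Nat.nth Nat.Prime k) w.1 w.2 ∈ I ∪ J) =
      (Finset.univ.filter fun w : ZMod (Nat.nth Nat.Prime k) × ZMod (Nat.nth Nat.Prime k) =>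
      redAngle (Nat.nth Nat.Prime k) w.1 w.2 ∈ I) ∪
      (Finset.univ.filter fun w : ZMod (Nat.nth Nat.Prime k) × ZMod (Nat.nth Nat.Prime k) =>
      redAngle (Nat.nth Nat.Prime k) w.1 w.2 ∈ J) := by
    ext w
    simp only [Finset.mem_filter, Finset.mem_union, Set.mem_union]
    tauto
  rw [h1, Finset.card_union_of_disjoint, Nat.cast_add]
  rw [Finset.disjoint_left]
  intro t ht ht'
  simp only [Finset.mem_filter] at ht ht'
  exact Set.disjoint_left.mp hIJ ht.2 ht'.2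

lemma law_total (k : ℕ) : angleLaw k (Set.Icc 0 1) = 1 := by
  classical
  rw [angleLaw_eq]
  have h1 : (Finset.univ.filter fun w : ZMod (Nat.nth Nat.Prime k) × ZMod (Nat.nth Nat.Prime k) =>
      redAngle (Nat.nth Nat.Prime k) w.1 w.2 ∈ Set.Icc (0 : ℝ) 1) = Finset.univ := by
    apply Finset.filter_true_of_mem
    intro w _
    exact ⟨redAngle_nonneg _ _ _, redAngle_le_one _ _ _⟩
  rw [h1, Finset.card_univ, Fintype.card_prod, ZMod.card]
  have := prime_pos k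
  push_cast
  rw [← sq, div_self (by positivity)]

lemma st_split {a b : ℝ} (h0 : 0 ≤ a) (hab : a ≤ b) :
    satoTate.real (Set.Ico 0 b) = satoTate.real (Set.Ico 0 a) + satoTate.real (Set.Ico a b) := by
  rw [← Set.Ico_union_Ico_eq_Ico h0 hab]
  exact measureReal_union (Set.Ico_disjoint_Ico_same) measurableSet_Ico

lemma st_one : satoTate.real (Set.Ico 0 1) = 1 := by
  rw [measureReal_def, satoTate_Ico_one]; rfl

/-- The error of the local law on `[0, θ)`. -/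
noncomputable def er (k : ℕ) (θ : ℝ) : ℝ :=
  angleLaw k (Set.Ico 0 θ) - satoTate.real (Set.Ico 0 θ)

lemma er_abs (k : ℕ) (θ : ℝ) : |er k θ| ≤ 1 := by
  have h1 := angleLaw_nonneg k (Set.Ico 0 θ)
  have h2 := angleLaw_le_one k (Set.Ico 0 θ)
  have h3 := satoTate_unit (Set.Ico 0 θ)
  unfold er
  rw [abs_le]; constructor <;> linarith

lemma er_le {h : ℕ → ℕ → ℕ} {k : ℕ} (hk : 17 ≤ Nat.nth Nat.Prime k)
    (hD : Deuring (Nat.nth Nat.Prime k) (h k)) (θ : ℝ) : er k θ ≤ W h k θ + del h k := by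
  have := law_upper hk hD (Set.Ico 0 θ)
  unfold er W
  linarith

lemma er_ge {h : ℕ → ℕ → ℕ} {k : ℕ} (hk : 17 ≤ Nat.nth Nat.Prime k)
    (hD : Deuring (Nat.nth Nat.Prime k) (h k)) {θ : ℝ} (h0 : 0 ≤ θ) (h1 : θ ≤ 1) :
    W h k θ - W h k 1 - del h k ≤ er k θ := by
  have hup := law_upper hk hD (Set.Icc θ 1)
  rw [trSet_Icc _ (by omega)] at hup
  have hdis : Disjoint (Set.Ico 0 θ) (Set.Icc θ 1) := by
    rw [Set.disjoint_left]
    intro x hx hx'
    exact absurd hx.2 (not_lt.mpr hx'.1)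
  have hun : Set.Ico 0 θ ∪ Set.Icc θ 1 = Set.Icc 0 1 := Set.Ico_union_Icc_eq_Icc h0 h1
  have h2 := law_split k hdis
  rw [hun, law_total] at h2
  have hdis' : Disjoint (Set.Ico 0 θ) (Set.Ico θ 1) := Set.Ico_disjoint_Ico_same
  have h3 := trSet_split (Nat.nth Nat.Prime k) hdis' (fun t => (h k t.natAbs : ℝ))
  rw [Set.Ico_union_Ico_eq_Ico h0 h1] at h3
  have h4 := st_one
  unfold er W
  rw [h3, add_div, h4]
  linarith

lemma sum_rpow (K : ℕ) {ε : ℝ} (hε : 0 ≤ ε) :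
    ∑ k ∈ range K, ((k : ℝ) + 1) ^ (ε - 1 / 2) ≤ 2 * (K : ℝ) ^ (1 / 2 + ε) := by
  have h1 : ∀ K : ℕ, ∑ k ∈ range K, 1 / √((k : ℝ) + 1) ≤ 2 * √(K : ℝ) := by
    intro K
    induction K with
    | zero => simp
    | succ n ih =>
      rw [Finset.sum_range_succ]
      have hs : 0 < √((n : ℝ) + 1) := Real.sqrt_pos.mpr (by positivity)
      have h2 : 1 / √((n : ℝ) + 1) ≤ 2 * √((n : ℝ) + 1) - 2 * √(n : ℝ) := by
        rw [div_le_iff₀ hs]
        have e1 : √((n : ℝ) + 1) * √((n : ℝ) + 1) = n + 1 := Real.mul_self_sqrt (by positivity)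
        have e2 : √(n : ℝ) * √(n : ℝ) = n := Real.mul_self_sqrt (by positivity)
        nlinarith [sq_nonneg (√((n : ℝ) + 1) - √(n : ℝ))]
      push_cast
      linarith
  rcases Nat.eq_zero_or_pos K with rfl | hK
  · simp
    positivity
  have hKR : (0 : ℝ) < K := by exact_mod_cast hK
  calc ∑ k ∈ range K, ((k : ℝ) + 1) ^ (ε - 1 / 2)
      ≤ ∑ k ∈ range K, (K : ℝ) ^ ε * (1 / √((k : ℝ) + 1)) := by
        refine Finset.sum_le_sum (fun k hk => ?_)
        have hk' : (k : ℝ) + 1 ≤ K := by exact_mod_cast (Finset.mem_range.mp hk)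
        have hpos : (0 : ℝ) < (k : ℝ) + 1 := by positivity
        rw [sub_eq_add_neg, Real.rpow_add hpos, Real.rpow_neg hpos.le, ← Real.sqrt_eq_rpow,
          one_div]
        exact mul_le_mul_of_nonneg_right (Real.rpow_le_rpow hpos.le hk' hε) (by positivity)
    _ = (K : ℝ) ^ ε * ∑ k ∈ range K, 1 / √((k : ℝ) + 1) := by rw [Finset.mul_sum]
    _ ≤ (K : ℝ) ^ ε * (2 * √(K : ℝ)) := mul_le_mul_of_nonneg_left (h1 K) (by positivity)
    _ = 2 * (K : ℝ) ^ (1 / 2 + ε) := by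
        rw [Real.rpow_add hKR, ← Real.sqrt_eq_rpow]; ring

lemma del_le {h : ℕ → ℕ → ℕ} (c3 : C3 h) {ε : ℝ} (hε : 0 < ε) (hε1 : ε ≤ 1 / 4) :
    ∃ C : ℝ, 0 ≤ C ∧ ∀ k, del h k ≤ C * ((k : ℝ) + 1) ^ (ε - 1 / 2) := by
  obtain ⟨C, hC⟩ := c3 ε hε
  refine ⟨|C| + 8, by positivity, fun k => ?_⟩
  have hp := prime_pos k
  set p : ℝ := (Nat.nth Nat.Prime k : ℝ) with hpdef
  have hkp : (k : ℝ) + 1 ≤ p := by
    have h1 := lt_nth_prime k
    rw [hpdef]
    exact_mod_cast h1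
  have h1 : (h k 0 : ℝ) ≤ |C| * p ^ (1 / 2 + ε) :=
    (hC k).trans (mul_le_mul_of_nonneg_right (le_abs_self C) (by positivity))
  have hone : (1 : ℝ) ≤ p := by
    have : (0 : ℝ) ≤ k := Nat.cast_nonneg k
    linarith
  have h2 : p ^ (1 / 2 + ε) = p * p ^ (ε - 1 / 2) := by
    rw [← Real.rpow_one_add' hp.le (by linarith)]; congr 1; ring
  have h3 : (1 : ℝ) / p ≤ p ^ (ε - 1 / 2) := by
    rw [one_div, ← Real.rpow_neg_one]
    exact Real.rpow_le_rpow_of_exponent_le hone (by linarith)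
  have h4 : del h k ≤ (|C| + 8) * p ^ (ε - 1 / 2) := by
    unfold del
    rw [← hpdef]
    have h5 : (h k 0 : ℝ) / (2 * p) ≤ |C| * p ^ (ε - 1 / 2) := by
      rw [div_le_iff₀ (by positivity)]
      have : |C| * p ^ (ε - 1 / 2) * (2 * p) = 2 * (|C| * p ^ (1 / 2 + ε)) := by
        rw [h2]; ring
      rw [this]
      have : 0 ≤ |C| * p ^ (1 / 2 + ε) := by positivity
      linarith
    have h6 : 8 / p ≤ 8 * p ^ (ε - 1 / 2) := by
      have : 8 / p = 8 * (1 / p) := by ring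
      rw [this]
      exact mul_le_mul_of_nonneg_left h3 (by norm_num)
    linarith
  refine h4.trans (mul_le_mul_of_nonneg_left ?_ (by positivity))
  exact Real.rpow_le_rpow_of_nonpos (by positivity) hkp (by linarith)

section main

variable {h : ℕ → ℕ → ℕ} {k0 : ℕ}

/-- The sum of the errors, for one `θ`. -/
lemma sum_er (hk0 : ∀ k, k0 ≤ k → 17 ≤ Nat.nth Nat.Prime k)
    (hD : ∀ k, k0 ≤ k → Deuring (Nat.nth Nat.Prime k) (h k))
    (w0 : ℕ → ℝ) (hw0 : ∀ k ∈ range k0, ∀ θ : ℝ, 0 ≤ θ → θ ≤ 1 → |W h k θ| ≤ w0 k)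
    (K : ℕ) {θ : ℝ} (h0 : 0 ≤ θ) (h1 : θ ≤ 1) :
    |∑ k ∈ range K, er k θ| ≤ |∑ k ∈ range K, W h k θ| + |∑ k ∈ range K, W h k 1| +
      ∑ k ∈ range K, del h k + ∑ k ∈ range k0, (1 + 2 * w0 k) := by
  classical
  have hup : ∀ k ∈ range K, er k θ ≤ W h k θ + del h k +
      (if k < k0 then 1 + 2 * w0 k else 0) := by
    intro k _
    by_cases hk : k < k0
    · rw [if_pos hk]
      have e1 := (abs_le.mp (er_abs k θ)).2
      have e2 := (abs_le.mp (hw0 k (Finset.mem_range.mpr hk) θ h0 h1)).1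
      have e3 := del_nonneg h k
      have e4 := (abs_nonneg _).trans (hw0 k (Finset.mem_range.mpr hk) θ h0 h1)
      linarith
    · rw [if_neg hk, add_zero]
      exact er_le (hk0 k (by omega)) (hD k (by omega)) θ
  have hlow : ∀ k ∈ range K, W h k θ - W h k 1 - del h k -
      (if k < k0 then 1 + 2 * w0 k else 0) ≤ er k θ := by
    intro k _
    by_cases hk : k < k0
    · rw [if_pos hk]
      have e1 := (abs_le.mp (er_abs k θ)).1
      have e2 := (abs_le.mp (hw0 k (Finset.mem_range.mpr hk) θ h0 h1)).2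
      have e3 := del_nonneg h k
      have e4 := (abs_le.mp (hw0 k (Finset.mem_range.mpr hk) 1 zero_le_one le_rfl)).1
      linarith
    · rw [if_neg hk, sub_zero]
      exact er_ge (hk0 k (by omega)) (hD k (by omega)) h0 h1
  have hsmall : ∑ k ∈ range K, (if k < k0 then 1 + 2 * w0 k else 0) ≤
      ∑ k ∈ range k0, (1 + 2 * w0 k) := by
    rw [← Finset.sum_filter]
    refine Finset.sum_le_sum_of_subset_of_nonneg ?_ ?_
    · intro k hk
      rw [Finset.mem_filter] at hk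
      exact Finset.mem_range.mpr hk.2
    · intro k hk _
      have := (abs_nonneg _).trans (hw0 k hk θ h0 h1)
      linarith
  have h2 := Finset.sum_le_sum hup
  have h3 := Finset.sum_le_sum hlow
  rw [Finset.sum_add_distrib, Finset.sum_add_distrib] at h2
  rw [Finset.sum_sub_distrib, Finset.sum_sub_distrib, Finset.sum_sub_distrib] at h3
  have h4 := le_abs_self (∑ k ∈ range K, W h k θ)
  have h5 := neg_abs_le (∑ k ∈ range K, W h k θ)
  have h6 := le_abs_self (∑ k ∈ range K, W h k 1)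
  have h7 := abs_nonneg (∑ k ∈ range K, W h k 1)
  have h8 : 0 ≤ ∑ k ∈ range K, del h k := Finset.sum_nonneg (fun k _ => del_nonneg h k)
  rw [abs_le]
  constructor <;> linarith

/-- The curve-free bounds. -/
theorem bridge (hk0 : ∀ k, k0 ≤ k → 17 ≤ Nat.nth Nat.Prime k)
    (hD : ∀ k, k0 ≤ k → Deuring (Nat.nth Nat.Prime k) (h k))
    (c1 : C1 h) (c2 : C2 h) (c3 : C3 h) :
    (∀ ε : ℝ, 0 < ε → ∃ C : ℝ, ∀ K : ℕ, 1 ≤ K → meanDisc 1 K ≤ C * (K : ℝ) ^ (ε - 1 / 2)) ∧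
    (∀ ε : ℝ, 0 < ε → ∃ C : ℝ, ∀ K : ℕ, 1 ≤ K →
      ∑ k ∈ range K, localErr k ^ 2 ≤ C * (K : ℝ) ^ (1 / 2 + ε)) := by
  classical
  -- the initial segment
  obtain ⟨w0, hw0⟩ : ∃ w0 : ℕ → ℝ, ∀ k ∈ range k0, ∀ θ : ℝ, 0 ≤ θ → θ ≤ 1 → |W h k θ| ≤ w0 k := by
    obtain ⟨C, hC⟩ := c2 1 one_pos
    obtain ⟨w, hw, -⟩ := hC (k0 + 1) (by omega)
    exact ⟨w, fun k hk => hw k (Finset.mem_range.mpr (by
      have := Finset.mem_range.mp hk; omega))⟩
  set B : ℝ := ∑ k ∈ range k0, (1 + 2 * w0 k) with hB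
  have hB0 : 0 ≤ B := Finset.sum_nonneg (fun k hk => by
    have := (abs_nonneg _).trans (hw0 k hk 0 le_rfl zero_le_one)
    linarith)
  constructor
  · intro ε hε
    set ε' : ℝ := min ε (1 / 4) with hε'
    have hε'0 : 0 < ε' := lt_min hε (by norm_num)
    have hε'1 : ε' ≤ 1 / 4 := min_le_right _ _
    obtain ⟨C, hC⟩ := c1 ε' hε'0
    obtain ⟨D, hD0, hDel⟩ := del_le c3 hε'0 hε'1
    refine ⟨2 * (2 * |C| + 2 * D + B), fun K hK => ?_⟩
    have hKR : (1 : ℝ) ≤ K := by exact_mod_cast hK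
    have hKpos : (0 : ℝ) < K := by linarith
    have hpow1 : (1 : ℝ) ≤ (K : ℝ) ^ (1 / 2 + ε') := Real.one_le_rpow hKR (by linarith)
    have hsum : ∀ θ : ℝ, 0 ≤ θ → θ ≤ 1 → |∑ k ∈ range K, er k θ| ≤
        (2 * |C| + 2 * D + B) * (K : ℝ) ^ (1 / 2 + ε') := by
      intro θ h0 h1
      have e1 := sum_er hk0 hD w0 hw0 K h0 h1
      have e2 := hC K hK θ h0 h1
      have e3 := hC K hK 1 zero_le_one le_rfl
      have e4 : C * (K : ℝ) ^ (1 / 2 + ε') ≤ |C| * (K : ℝ) ^ (1 / 2 + ε') :=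
        mul_le_mul_of_nonneg_right (le_abs_self C) (by positivity)
      have e5 : ∑ k ∈ range K, del h k ≤ 2 * D * (K : ℝ) ^ (1 / 2 + ε') := by
        calc ∑ k ∈ range K, del h k ≤ ∑ k ∈ range K, D * ((k : ℝ) + 1) ^ (ε' - 1 / 2) :=
              Finset.sum_le_sum (fun k _ => hDel k)
          _ = D * ∑ k ∈ range K, ((k : ℝ) + 1) ^ (ε' - 1 / 2) := by rw [Finset.mul_sum]
          _ ≤ D * (2 * (K : ℝ) ^ (1 / 2 + ε')) :=
              mul_le_mul_of_nonneg_left (sum_rpow K hε'0.le) hD0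
          _ = 2 * D * (K : ℝ) ^ (1 / 2 + ε') := by ring
      have e6 : B ≤ B * (K : ℝ) ^ (1 / 2 + ε') := by nlinarith
      have e7 : (2 * |C| + 2 * D + B) * (K : ℝ) ^ (1 / 2 + ε') =
          |C| * (K : ℝ) ^ (1 / 2 + ε') + |C| * (K : ℝ) ^ (1 / 2 + ε') +
          2 * D * (K : ℝ) ^ (1 / 2 + ε') + B * (K : ℝ) ^ (1 / 2 + ε') := by ring
      rw [e7]
      linarith
    refine csSup_le ⟨_, fun _ => 0, fun _ => 1, fun _ => ⟨le_rfl, zero_le_one, le_rfl⟩, rfl⟩ ?_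
    rintro r ⟨a, b, hab, rfl⟩
    rw [real_box]
    unfold meanCount
    simp only [Fin.prod_univ_one, Fin.isValue, Fin.val_zero, add_zero]
    obtain ⟨ha0, hab1, hb1⟩ := hab 0
    have hsplit : ∀ k, angleLaw k (Set.Ico (a 0) (b 0)) - satoTate.real (Set.Ico (a 0) (b 0)) =
        er k (b 0) - er k (a 0) := by
      intro k
      have e1 := law_split k (I := Set.Ico 0 (a 0)) (J := Set.Ico (a 0) (b 0))
        Set.Ico_disjoint_Ico_same
      rw [Set.Ico_union_Ico_eq_Ico ha0 hab1] at e1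
      have e2 := st_split ha0 hab1
      unfold er
      rw [e1, e2]; ring
    have hav : (∑ k ∈ range K, angleLaw k (Set.Ico (a 0) (b 0))) / K -
        satoTate.real (Set.Ico (a 0) (b 0)) =
        (∑ k ∈ range K, er k (b 0) - ∑ k ∈ range K, er k (a 0)) / K := by
      rw [← Finset.sum_sub_distrib, ← Finset.sum_congr rfl (fun k _ => hsplit k),
        Finset.sum_sub_distrib, Finset.sum_const, Finset.card_range, nsmul_eq_mul]
      field_simp
    rw [hav, abs_div, abs_of_pos hKpos, div_le_iff₀ hKpos]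
    have f1 := hsum (b 0) (ha0.trans hab1) hb1
    have f2 := hsum (a 0) ha0 (hab1.trans hb1)
    have f3 := abs_sub (∑ k ∈ range K, er k (b 0)) (∑ k ∈ range K, er k (a 0))
    have f4 : (K : ℝ) ^ (1 / 2 + ε') ≤ (K : ℝ) ^ (ε - 1 / 2) * K := by
      have : (K : ℝ) ^ (ε - 1 / 2) * K = (K : ℝ) ^ (1 / 2 + ε) := by
        rw [mul_comm, ← Real.rpow_one_add' hKpos.le (by linarith)]; congr 1; ring
      rw [this]
      exact Real.rpow_le_rpow_of_exponent_le hKR (by linarith [min_le_left ε (1 / 4)])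
    have f5 : 0 ≤ 2 * |C| + 2 * D + B := by positivity
    calc _ ≤ 2 * ((2 * |C| + 2 * D + B) * (K : ℝ) ^ (1 / 2 + ε')) := by linarith
      _ ≤ 2 * ((2 * |C| + 2 * D + B) * ((K : ℝ) ^ (ε - 1 / 2) * K)) := by gcongr
      _ = 2 * (2 * |C| + 2 * D + B) * (K : ℝ) ^ (ε - 1 / 2) * K := by ring
  · intro ε hε
    set ε' : ℝ := min ε (1 / 4) with hε'
    have hε'0 : 0 < ε' := lt_min hε (by norm_num)
    have hε'1 : ε' ≤ 1 / 4 := min_le_right _ _
    obtain ⟨C, hC⟩ := c2 ε' hε'0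
    obtain ⟨D, hD0, hDel⟩ := del_le c3 hε'0 hε'1
    refine ⟨(k0 : ℝ) + 32 * |C| + 16 * D ^ 2, fun K hK => ?_⟩
    have hKR : (1 : ℝ) ≤ K := by exact_mod_cast hK
    have hKpos : (0 : ℝ) < K := by linarith
    have hpow1 : (1 : ℝ) ≤ (K : ℝ) ^ (1 / 2 + ε') := Real.one_le_rpow hKR (by linarith)
    obtain ⟨w, hw, hws⟩ := hC K hK
    have hle : ∀ k ∈ range K, localErr k ^ 2 ≤ (if k < k0 then 1 else 0) +
        (32 * w k ^ 2 + 8 * del h k ^ 2) := by
      intro k hk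
      by_cases hkk : k < k0
      · rw [if_pos hkk]
        have e1 : localErr k ≤ 1 := by
          refine csSup_le ⟨_, 0, 1, le_rfl, zero_le_one, le_rfl, rfl⟩ ?_
          rintro r ⟨a, b, ha, hab, hb, rfl⟩
          have h1 := angleLaw_nonneg k (Set.Ico a b)
          have h2 := angleLaw_le_one k (Set.Ico a b)
          have h3 := satoTate_unit (Set.Ico a b)
          rw [abs_le]; constructor <;> linarith
        have e2 := localErr_nonneg k
        have e3 : localErr k ^ 2 ≤ 1 := by nlinarith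
        have e4 : 0 ≤ 32 * w k ^ 2 + 8 * del h k ^ 2 := by positivity
        linarith
      · rw [if_neg hkk, zero_add]
        have e1 : localErr k ≤ 4 * w k + 2 * del h k := by
          refine csSup_le ⟨_, 0, 1, le_rfl, zero_le_one, le_rfl, rfl⟩ ?_
          rintro r ⟨a, b, ha, hab, hb, rfl⟩
          have hsplit : angleLaw k (Set.Ico a b) - satoTate.real (Set.Ico a b) =
              er k b - er k a := by
            have e1 := law_split k (I := Set.Ico 0 a) (J := Set.Ico a b)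
              Set.Ico_disjoint_Ico_same
            rw [Set.Ico_union_Ico_eq_Ico ha hab] at e1
            have e2 := st_split ha hab
            unfold er
            rw [e1, e2]; ring
          have hbd : ∀ θ : ℝ, 0 ≤ θ → θ ≤ 1 → |er k θ| ≤ 2 * w k + del h k := by
            intro θ h0 h1
            have f1 := er_le (hk0 k (by omega)) (hD k (by omega)) θ
            have f2 := er_ge (hk0 k (by omega)) (hD k (by omega)) h0 h1
            have f3 := abs_le.mp (hw k hk θ h0 h1)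
            have f4 := abs_le.mp (hw k hk 1 zero_le_one le_rfl)
            have f5 := (abs_nonneg _).trans (hw k hk θ h0 h1)
            rw [abs_le]; constructor <;> linarith
          rw [hsplit]
          have g1 := hbd a ha (hab.trans hb)
          have g2 := hbd b (ha.trans hab) hb
          have g3 := abs_sub (er k b) (er k a)
          linarith
        have e2 := localErr_nonneg k
        have e3 : localErr k ^ 2 ≤ (4 * w k + 2 * del h k) ^ 2 := pow_le_pow_left₀ e2 e1 2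
        nlinarith [sq_nonneg (4 * w k - 2 * del h k)]
    refine (Finset.sum_le_sum hle).trans ?_
    rw [Finset.sum_add_distrib, Finset.sum_add_distrib, ← Finset.mul_sum, ← Finset.mul_sum]
    have g1 : ∑ k ∈ range K, (if k < k0 then (1 : ℝ) else 0) ≤ k0 := by
      rw [← Finset.sum_filter, Finset.sum_const, nsmul_eq_mul, mul_one]
      have : ((range K).filter (fun k => k < k0)).card ≤ (range k0).card := by
        apply Finset.card_le_card
        intro k hk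
        rw [Finset.mem_filter] at hk
        exact Finset.mem_range.mpr hk.2
      rw [Finset.card_range] at this
      exact_mod_cast this
    have g2 : ∑ k ∈ range K, del h k ^ 2 ≤ 2 * D ^ 2 * (K : ℝ) ^ (1 / 2 + ε') := by
      calc ∑ k ∈ range K, del h k ^ 2
          ≤ ∑ k ∈ range K, D ^ 2 * ((k : ℝ) + 1) ^ (ε' - 1 / 2) := by
            refine Finset.sum_le_sum (fun k _ => ?_)
            have hpos : (0 : ℝ) < (k : ℝ) + 1 := by positivity
            have hone : (1 : ℝ) ≤ (k : ℝ) + 1 := by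
              have : (0 : ℝ) ≤ k := Nat.cast_nonneg k
              linarith
            have f1 : ((k : ℝ) + 1) ^ (ε' - 1 / 2) ≤ 1 :=
              Real.rpow_le_one_of_one_le_of_nonpos hone (by linarith)
            have f2 : 0 ≤ ((k : ℝ) + 1) ^ (ε' - 1 / 2) := by positivity
            have f3 := pow_le_pow_left₀ (del_nonneg h k) (hDel k) 2
            rw [mul_pow] at f3
            refine f3.trans (mul_le_mul_of_nonneg_left ?_ (by positivity))
            nlinarith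
        _ = D ^ 2 * ∑ k ∈ range K, ((k : ℝ) + 1) ^ (ε' - 1 / 2) := by rw [Finset.mul_sum]
        _ ≤ D ^ 2 * (2 * (K : ℝ) ^ (1 / 2 + ε')) :=
            mul_le_mul_of_nonneg_left (sum_rpow K hε'0.le) (by positivity)
        _ = 2 * D ^ 2 * (K : ℝ) ^ (1 / 2 + ε') := by ring
    have g3 : C * (K : ℝ) ^ (1 / 2 + ε') ≤ |C| * (K : ℝ) ^ (1 / 2 + ε') :=
      mul_le_mul_of_nonneg_right (le_abs_self C) (by positivity)
    have g4 : (k0 : ℝ) ≤ k0 * (K : ℝ) ^ (1 / 2 + ε') := by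
      have : (0 : ℝ) ≤ k0 := Nat.cast_nonneg k0
      nlinarith
    have g5 : (K : ℝ) ^ (1 / 2 + ε') ≤ (K : ℝ) ^ (1 / 2 + ε) :=
      Real.rpow_le_rpow_of_exponent_le hKR (by linarith [min_le_left ε (1 / 4)])
    calc _ ≤ ((k0 : ℝ) + 32 * |C| + 16 * D ^ 2) * (K : ℝ) ^ (1 / 2 + ε') := by
          have : ((k0 : ℝ) + 32 * |C| + 16 * D ^ 2) * (K : ℝ) ^ (1 / 2 + ε') =
            k0 * (K : ℝ) ^ (1 / 2 + ε') + 32 * (|C| * (K : ℝ) ^ (1 / 2 + ε')) +
            8 * (2 * D ^ 2 * (K : ℝ) ^ (1 / 2 + ε')) := by ring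
          rw [this]
          linarith
      _ ≤ _ := mul_le_mul_of_nonneg_left g5 (by positivity)

end main

end Pool.Agent.H11.DEU
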