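import Mathlib
import Pool.Agent.H11.DEU.Bridge

/-!
# The supremum over `θ` from a mean square bound for each `θ`
-/

namespace Pool.Agent.H11.DEU

open Pool.Agent.H11.STA Finset MeasureTheory

lemma st_le {a b : ℝ} (h0 : 0 ≤ a) (hab : a ≤ b) (h1 : b ≤ 1) :
    satoTate.real (Set.Ico a b) ≤ 2 * (b - a) := by
  have hle : ∫ u in a..b, 2 * Real.sin (Real.pi * u) ^ 2 ≤ ∫ _u in a..b, (2 : ℝ) := by
    apply intervalIntegral.integral_mono_on hab
    · exact cont_density.intervalIntegrable a b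
    · exact continuous_const.intervalIntegrable a b
    · intro x _
      have := Real.sin_sq_le_one (Real.pi * x)
      linarith
  have hnn : 0 ≤ ∫ u in a..b, 2 * Real.sin (Real.pi * u) ^ 2 :=
    intervalIntegral.integral_nonneg hab (fun u _ => by positivity)
  rw [measureReal_def, satoTate_Ico a b h0 hab h1, ENNReal.toReal_ofReal hnn]
  simp only [intervalIntegral.integral_const, smul_eq_mul] at hle
  linarith

lemma trSet_mono (p : ℕ) {I J : Set ℝ} (hIJ : I ⊆ J) : trSet p I ⊆ trSet p J := by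
  classical
  intro t ht
  simp only [trSet, Finset.mem_filter] at ht ⊢
  exact ⟨ht.1, ht.2.1, hIJ ht.2.2⟩

lemma W_mono (h : ℕ → ℕ → ℕ) (k : ℕ) {a b : ℝ} (h0 : 0 ≤ a) (hab : a ≤ b) (h1 : b ≤ 1) :
    W h k a - 2 * (b - a) ≤ W h k b := by
  have hp := prime_pos k
  have e1 : ∑ t ∈ trSet (Nat.nth Nat.Prime k) (Set.Ico 0 a), (h k t.natAbs : ℝ) ≤
      ∑ t ∈ trSet (Nat.nth Nat.Prime k) (Set.Ico 0 b), (h k t.natAbs : ℝ) :=
    Finset.sum_le_sum_of_subset_of_nonneg (trSet_mono _ (Set.Ico_subset_Ico_right hab))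
      (fun t _ _ => Nat.cast_nonneg _)
  have e2 := div_le_div_of_nonneg_right e1 (by positivity : (0 : ℝ) ≤
    2 * (Nat.nth Nat.Prime k : ℝ))
  have e3 := st_split h0 hab
  have e4 := st_le h0 hab h1
  unfold W
  linarith

theorem C2_of_ms {h : ℕ → ℕ → ℕ}
    (hms : ∀ ε : ℝ, 0 < ε → ∃ C : ℝ, ∀ K : ℕ, 1 ≤ K → ∀ θ : ℝ, 0 ≤ θ → θ ≤ 1 →
      ∑ k ∈ range K, W h k θ ^ 2 ≤ C * (K : ℝ) ^ ε) : C2 h := by
  intro ε hε
  obtain ⟨C, hC⟩ := hms ε hε
  refine ⟨6 * |C| + 8, fun K hK => ?_⟩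
  have hKR : (1 : ℝ) ≤ K := by exact_mod_cast hK
  have hKpos : (0 : ℝ) < K := by linarith
  have hs1 : 1 ≤ √(K : ℝ) := Real.one_le_sqrt.mpr hKR
  set M : ℕ := ⌈√(K : ℝ)⌉₊ with hM
  have hMge : √(K : ℝ) ≤ M := Nat.le_ceil _
  have hMle : (M : ℝ) < √(K : ℝ) + 1 := Nat.ceil_lt_add_one (by positivity)
  have hMpos : (0 : ℝ) < M := by linarith
  set w : ℕ → ℝ := fun k => √(∑ j ∈ range (M + 1), W h k ((j : ℝ) / M) ^ 2) + 2 / M with hw
  refine ⟨w, ?_, ?_⟩
  · intro k _ θ h0 h1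
    have hgrid : ∀ j : ℕ, j ≤ M → |W h k ((j : ℝ) / M)| ≤
        √(∑ j ∈ range (M + 1), W h k ((j : ℝ) / M) ^ 2) := by
      intro j hj
      apply Real.abs_le_sqrt
      exact Finset.single_le_sum (f := fun j : ℕ => W h k ((j : ℝ) / M) ^ 2)
        (fun i _ => sq_nonneg _) (Finset.mem_range.mpr (by omega))
    set j : ℕ := ⌊θ * M⌋₊ with hj
    have hj1 : (j : ℝ) ≤ θ * M := Nat.floor_le (by positivity)
    have hj2 : θ * M < j + 1 := Nat.lt_floor_add_one _
    have hjM : j ≤ M := by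
      have : (j : ℝ) ≤ M := hj1.trans (by nlinarith)
      exact_mod_cast this
    have hlow : W h k ((j : ℝ) / M) - 2 / M ≤ W h k θ := by
      have e1 : (j : ℝ) / M ≤ θ := by rw [div_le_iff₀ hMpos]; exact hj1
      have e2 := W_mono h k (a := (j : ℝ) / M) (b := θ) (by positivity) e1 h1
      have e3 : θ - (j : ℝ) / M ≤ 1 / M := by
        rw [sub_le_iff_le_add, ← add_div, le_div_iff₀ hMpos]
        linarith
      have e4 : 2 / (M : ℝ) = 2 * (1 / M) := by ring
      rw [e4]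
      linarith
    have hup : W h k θ ≤ √(∑ j ∈ range (M + 1), W h k ((j : ℝ) / M) ^ 2) + 2 / M := by
      rcases Nat.lt_or_ge j M with hlt | hge
      · have e0 : ((j : ℝ) + 1) / M ≤ 1 := by
          rw [div_le_one hMpos]; exact_mod_cast hlt
        have e1 : θ ≤ ((j : ℝ) + 1) / M := by rw [le_div_iff₀ hMpos]; exact hj2.le
        have e2 := W_mono h k (a := θ) (b := ((j : ℝ) + 1) / M) h0 e1 e0
        have e3 : ((j : ℝ) + 1) / M - θ ≤ 1 / M := by
          rw [sub_le_iff_le_add, div_le_iff₀ hMpos, add_mul, div_mul_cancel₀ _ hMpos.ne']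
          linarith
        have e4 : 2 / (M : ℝ) = 2 * (1 / M) := by ring
        have e5 := (le_abs_self _).trans (hgrid (j + 1) (by omega))
        push_cast at e5
        rw [e4]
        linarith
      · have hjM' : j = M := le_antisymm hjM hge
        have e1 : (1 : ℝ) ≤ θ := by
          rw [hjM'] at hj1
          by_contra hcon
          push Not at hcon
          nlinarith
        have e2 : θ = 1 := le_antisymm h1 e1
        have e3 := (le_abs_self _).trans (hgrid M le_rfl)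
        rw [div_self hMpos.ne'] at e3
        rw [e2]
        have : 0 ≤ 2 / (M : ℝ) := by positivity
        linarith
    have hneg := (abs_le.mp (hgrid j hjM)).1
    rw [hw, abs_le]
    constructor
    · simp only
      linarith
    · exact hup
  · have h1 : ∀ k ∈ range K, w k ^ 2 ≤
        2 * ∑ j ∈ range (M + 1), W h k ((j : ℝ) / M) ^ 2 + 8 / M ^ 2 := by
      intro k _
      have hnn : 0 ≤ ∑ j ∈ range (M + 1), W h k ((j : ℝ) / M) ^ 2 :=
        Finset.sum_nonneg (fun j _ => sq_nonneg _)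
      have e1 := Real.sq_sqrt hnn
      have e2 : 8 / (M : ℝ) ^ 2 = 2 * (2 / M) ^ 2 := by ring
      rw [e2, ← e1]
      simp only [hw]
      rw [e1]
      nlinarith [sq_nonneg (√(∑ j ∈ range (M + 1), W h k ((j : ℝ) / M) ^ 2) - 2 / M), e1]
    refine (Finset.sum_le_sum h1).trans ?_
    rw [Finset.sum_add_distrib, ← Finset.mul_sum, Finset.sum_comm, Finset.sum_const,
      Finset.card_range, nsmul_eq_mul]
    have h2 : ∀ j ∈ range (M + 1), ∑ k ∈ range K, W h k ((j : ℝ) / M) ^ 2 ≤ |C| * (K : ℝ) ^ ε := by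
      intro j hj
      have hjM : (j : ℝ) ≤ M := by
        have := Finset.mem_range.mp hj
        exact_mod_cast (by omega : j ≤ M)
      refine (hC K hK ((j : ℝ) / M) (by positivity) (by rw [div_le_one hMpos]; exact hjM)).trans ?_
      exact mul_le_mul_of_nonneg_right (le_abs_self C) (by positivity)
    have h3 := Finset.sum_le_sum h2
    rw [Finset.sum_const, Finset.card_range, nsmul_eq_mul] at h3
    have h4 : (K : ℝ) * (8 / M ^ 2) ≤ 8 := by
      have e1 : (K : ℝ) ≤ M ^ 2 := by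
        have := Real.sq_sqrt hKpos.le
        nlinarith
      rw [mul_div_assoc', div_le_iff₀ (by positivity)]
      nlinarith
    have h5 : ((M + 1 : ℕ) : ℝ) ≤ 3 * √(K : ℝ) := by push_cast; linarith
    have h6 : (K : ℝ) ^ (1 / 2 + ε) = √(K : ℝ) * (K : ℝ) ^ ε := by
      rw [Real.rpow_add hKpos, ← Real.sqrt_eq_rpow]
    have h7 : (1 : ℝ) ≤ (K : ℝ) ^ (1 / 2 + ε) := Real.one_le_rpow hKR (by linarith)
    have h8 : ((M + 1 : ℕ) : ℝ) * (|C| * (K : ℝ) ^ ε) ≤ 3 * |C| * (K : ℝ) ^ (1 / 2 + ε) := by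
      rw [h6]
      have : 0 ≤ |C| * (K : ℝ) ^ ε := by positivity
      calc _ ≤ 3 * √(K : ℝ) * (|C| * (K : ℝ) ^ ε) := mul_le_mul_of_nonneg_right h5 this
        _ = _ := by ring
    have h9 : (6 * |C| + 8) * (K : ℝ) ^ (1 / 2 + ε) = 2 * (3 * |C| * (K : ℝ) ^ (1 / 2 + ε)) +
      8 * (K : ℝ) ^ (1 / 2 + ε) := by ring
    rw [h9]
    linarith

end Pool.Agent.H11.DEU
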